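import Mathlib
import Pool.Agent.helper16.Final

set_option autoImplicit false

namespace Pool.Agent.Results.MP_f1903f_co.RamseyBandwidth

open Finset

/-- The bandwidth of a finite graph on `n` vertices: the least `b` such that the vertices can be
numbered `0, …, n - 1` with the two ends of every edge getting numbers at distance at most `b`. -/
noncomputable def bandwidth {V : Type*} [Fintype V] (H : SimpleGraph V) : ℕ :=
  sInf {b : ℕ | ∃ f : V ≃ Fin (Fintype.card V),
    ∀ u v, H.Adj u v → |((f u : ℕ) : ℤ) - ((f v : ℕ) : ℤ)| ≤ (b : ℤ)}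

/-- The two-colour Ramsey number `R(H, H)`: the least `N` such that for every graph `G` on `N`
vertices (the red edges), `G` or its complement (the blue edges) contains a copy of `H`. -/
noncomputable def ramseyNumber {V : Type*} (H : SimpleGraph V) : ℕ :=
  sInf {N : ℕ | ∀ G : SimpleGraph (Fin N), H.IsContained G ∨ H.IsContained Gᶜ}

/-- The set in the definition of the bandwidth is nonempty. -/
lemma bandwidth_spec {V : Type*} [Fintype V] (H : SimpleGraph V) :
    ∃ f : V ≃ Fin (Fintype.card V),
      ∀ u v, H.Adj u v → |((f u : ℕ) : ℤ) - ((f v : ℕ) : ℤ)| ≤ (bandwidth H : ℤ) := by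
  have hne : {b : ℕ | ∃ f : V ≃ Fin (Fintype.card V),
    ∀ u v, H.Adj u v → |((f u : ℕ) : ℤ) - ((f v : ℕ) : ℤ)| ≤ (b : ℤ)}.Nonempty := by
    refine ⟨Fintype.card V, Fintype.equivFin V, ?_⟩
    intro u v _
    have h1 := (Fintype.equivFin V u).isLt
    have h2 := (Fintype.equivFin V v).isLt
    rw [abs_le]
    constructor <;> omega
  exact Nat.sInf_mem hne

/-- **Main theorem.** There is an absolute constant (here `40`) such that for every `Δ` there are
`n₀` and `β > 0` such that every graph `H` on `n ≥ n₀` vertices with maximum degree at most `Δ` and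
bandwidth at most `β n` satisfies `R(H, H) ≤ (χ(H) + 40) n`. -/
theorem result : ∀ Δ : ℕ, ∃ (n₀ : ℕ) (β : ℝ), 0 < β ∧
    ∀ {V : Type*} [Fintype V] (H : SimpleGraph V) [DecidableRel H.Adj],
      n₀ ≤ Fintype.card V → H.maxDegree ≤ Δ →
      (bandwidth H : ℝ) ≤ β * (Fintype.card V : ℝ) →
      (ramseyNumber H : ℕ∞) ≤ (H.chromaticNumber + 40) * (Fintype.card V : ℕ∞) := by
  intro Δ
  obtain ⟨n0, β, hβ, hmain⟩ := Pool.Agent.helper16.main_uniform Δ (Δ + 1)
  refine ⟨n0, β, hβ, ?_⟩
  intro V _ H _ hn hdeg hband
  classical
  set n := Fintype.card V with hndef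
  obtain ⟨f, hf⟩ := bandwidth_spec H
  have hcol : H.Colorable (Δ + 1) := Pool.Agent.helper16.greedy_colour H Δ hdeg
  -- the chromatic number as a natural number
  obtain ⟨r, hr⟩ : ∃ r : ℕ, H.chromaticNumber = r :=
    ⟨H.chromaticNumber.toNat, (ENat.natCast_toNat (SimpleGraph.chromaticNumber_ne_top_iff_exists.2
      ⟨_, hcol⟩)).symm⟩
  have hrcol : H.Colorable r := SimpleGraph.chromaticNumber_le_iff_colorable.1 hr.le
  have hrΔ : r ≤ Δ + 1 := by
    have := SimpleGraph.chromaticNumber_le_iff_colorable.2 hcol
    rw [hr] at this
    exact_mod_cast this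
  have hgoal : ramseyNumber H ≤ (r + 40) * n := by
    by_cases hr2 : 2 ≤ r
    · -- the main case
      obtain ⟨C⟩ := hrcol
      let H' : SimpleGraph ℕ :=
        { Adj := fun a b => ∃ (ha : a < n) (hb : b < n), H.Adj (f.symm ⟨a, ha⟩) (f.symm ⟨b, hb⟩)
          symm := by
            constructor
            rintro a b ⟨ha, hb, h⟩
            exact ⟨hb, ha, h.symm⟩
          loopless := by
            constructor
            rintro a ⟨ha, _, h⟩
            exact H.loopless.irrefl _ h }
      let col : ℕ → Fin r := fun a => if h : a < n then C (f.symm ⟨a, h⟩) else ⟨0, by omega⟩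
      apply Nat.sInf_le
      intro G
      obtain ⟨φ, hinj, hadj⟩ := hmain r hr2 hrΔ n hn (bandwidth H) hband ((r + 40) * n) rfl G H' col
        (by
          intro x y hx hy hxy
          obtain ⟨_, _, h⟩ := hxy
          simp only [col, dif_pos hx, dif_pos hy]
          exact C.valid h)
        (by
          intro x hx
          have h1 : #{y ∈ range n | H'.Adj y x} ≤ #(H.neighborFinset (f.symm ⟨x, hx⟩)) := by
            apply card_le_card_of_injOn (fun y => if h : y < n then f.symm ⟨y, h⟩ else
              f.symm ⟨x, hx⟩)
            · intro y hy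
              simp only [coe_filter, Set.mem_ofPred_eq, mem_range] at hy
              obtain ⟨hy1, hy2, _, h⟩ := hy
              simp only [dif_pos hy1]
              rw [mem_coe, SimpleGraph.mem_neighborFinset]
              exact h.symm
            · intro y hy z hz hyz
              simp only [coe_filter, Set.mem_ofPred_eq, mem_range] at hy hz
              simp only [dif_pos hy.1, dif_pos hz.1] at hyz
              have := f.symm.injective hyz
              simpa using this
          rw [SimpleGraph.card_neighborFinset_eq_degree] at h1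
          exact h1.trans ((H.degree_le_maxDegree _).trans hdeg))
        (by
          intro x y hx hy hxy
          obtain ⟨_, _, h⟩ := hxy
          have h1 := hf _ _ h
          simp only [Equiv.apply_symm_apply] at h1
          rw [abs_le] at h1
          have h2 := h1.2
          omega)
      have hφinj : Function.Injective (fun v : V => φ (f v)) := by
        intro u v huv
        have := hinj (f u) (f u).isLt (f v) (f v).isLt huv
        exact f.injective (Fin.ext this)
      have hH' : ∀ u v, H.Adj u v → H'.Adj (f u) (f v) := by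
        intro u v huv
        refine ⟨(f u).isLt, (f v).isLt, ?_⟩
        simpa using huv
      rcases hadj with hadj | hadj
      · left
        exact ⟨⟨⟨fun v => φ (f v), fun {u v} huv =>
          hadj _ (f u).isLt _ (f v).isLt (hH' u v huv)⟩, hφinj⟩⟩
      · right
        exact ⟨⟨⟨fun v => φ (f v), fun {u v} huv =>
          hadj _ (f u).isLt _ (f v).isLt (hH' u v huv)⟩, hφinj⟩⟩
    · -- no edges
      have hbot : ∀ u v, ¬ H.Adj u v := by
        intro u v huv
        have h1 := SimpleGraph.two_le_chromaticNumber_of_adj huv
        rw [hr] at h1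
        have h2 : 2 ≤ r := by exact_mod_cast h1
        exact hr2 h2
      have h1 : ramseyNumber H ≤ n := by
        apply Nat.sInf_le
        intro G
        left
        exact ⟨⟨⟨fun v => f v, fun {u v} huv => (hbot u v huv).elim⟩, f.injective⟩⟩
      exact h1.trans (Nat.le_mul_of_pos_left n (by omega))
  rw [hr]
  exact_mod_cast hgoal

end Pool.Agent.Results.MP_f1903f_co.RamseyBandwidth
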